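import Pool.Agent.U36.TS.Stm

/-!
# Project TS, package WN: wild inertia is a group normalised by inertia and Frobenius elements
-/

set_option autoImplicit false

namespace Pool.Agent.U591.TS

open Pool.Agent.U36.TS

/-- an automorphism which maps `V` into `V` and nonunits to nonunits preserves nonunits in both
directions -/
theorem nonunits_iff {B : Type} [Field B] (V : ValuationSubring B) (φ : B ≃+* B)
    (h1 : ∀ x ∈ V, φ x ∈ V) (h2 : ∀ x ∈ V.nonunits, φ x ∈ V.nonunits) (x : B) :
    φ x ∈ V.nonunits ↔ x ∈ V.nonunits := by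
  refine ⟨fun h => ?_, h2 x⟩
  by_contra hx
  rw [ValuationSubring.mem_nonunits_iff, not_lt] at hx
  have hx0 : x ≠ 0 := by
    rintro rfl
    rw [map_zero] at hx
    exact absurd hx (not_le.2 zero_lt_one)
  have h3 : x⁻¹ ∈ V := by
    rw [← ValuationSubring.valuation_le_one_iff, map_inv₀]
    exact inv_le_one_of_one_le₀ hx
  have h4 := h1 _ h3
  rw [← ValuationSubring.valuation_le_one_iff, map_inv₀, map_inv₀] at h4
  rw [ValuationSubring.mem_nonunits_iff] at h
  have h0 : V.valuation (φ x) ≠ 0 := by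
    rw [Ne, map_eq_zero, map_eq_zero_iff φ φ.injective]
    exact hx0
  have h5 : 1 ≤ V.valuation (φ x) := by
    rw [inv_le_one₀ (zero_lt_iff.2 h0)] at h4
    exact h4
  exact absurd h (not_lt.2 h5)

theorem wild_mul {K B : Type} [Field K] [Field B] [Algebra K B] (V : ValuationSubring B)
    {g h : B ≃ₐ[K] B} (hg : Wild V g) (hh : Wild V h) : Wild V (g * h) := by
  intro x hx
  have hx' : h x ≠ 0 := by
    intro h0
    exact hx ((map_eq_zero_iff h h.injective).1 h0)
  have h1 := hg (h x) hx'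
  have h2 := hh x hx
  have h3 : (g * h) x / x - 1 = (g (h x) / h x - 1) * (h x / x - 1) + (g (h x) / h x - 1)
      + (h x / x - 1) := by
    rw [AlgEquiv.mul_apply]
    field_simp
    ring
  rw [ValuationSubring.mem_nonunits_iff] at h1 h2 ⊢
  rw [h3]
  refine Valuation.map_add_lt _ (Valuation.map_add_lt _ ?_ h1) h2
  rw [map_mul]
  exact mul_lt_one_of_nonneg_of_lt_one_left zero_le h1 h2.le

theorem wild_inv {K B : Type} [Field K] [Field B] [Algebra K B] (V : ValuationSubring B)
    {g : B ≃ₐ[K] B} (hg : Wild V g) : Wild V g⁻¹ := by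
  intro x hx
  have hgx : g (g⁻¹ x) = x := g.apply_symm_apply x
  have hy : g⁻¹ x ≠ 0 := by
    intro h0
    apply hx
    rw [← hgx, h0, map_zero]
  have h1 := hg _ hy
  rw [hgx] at h1
  rw [ValuationSubring.mem_nonunits_iff] at h1 ⊢
  have h2 : V.valuation (x / g⁻¹ x) = 1 := by
    have h3 : x / g⁻¹ x = (x / g⁻¹ x - 1) + 1 := by ring
    rw [h3, Valuation.map_add_eq_of_lt_right _ (by rw [map_one]; exact h1), map_one]
  have h4 : g⁻¹ x / x - 1 = -(x / g⁻¹ x - 1) / (x / g⁻¹ x) := by
    field_simp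
    ring
  rw [h4, map_div₀, h2, div_one, Valuation.map_neg]
  exact h1

/-- conjugates of wild elements under elements preserving nonunits -/
theorem wild_conj {K B : Type} [Field K] [Field B] [Algebra K B] (V : ValuationSubring B)
    {g t : B ≃ₐ[K] B} (hg : Wild V g) (ht : ∀ x, t x ∈ V.nonunits ↔ x ∈ V.nonunits) :
    Wild V (t * g * t⁻¹) ∧ Wild V (t⁻¹ * g * t) := by
  have htt : ∀ x, t (t⁻¹ x) = x := fun x => t.apply_symm_apply x
  have htt' : ∀ x, t⁻¹ (t x) = x := fun x => t.symm_apply_apply x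
  constructor
  · intro x hx
    have hy : t⁻¹ x ≠ 0 := by
      intro h0
      apply hx
      rw [← htt x, h0, map_zero]
    have h1 := hg _ hy
    rw [← ht] at h1
    have h2 : t (g (t⁻¹ x) / t⁻¹ x - 1) = (t * g * t⁻¹) x / x - 1 := by
      rw [map_sub, map_div₀, map_one, htt, AlgEquiv.mul_apply, AlgEquiv.mul_apply]
    rw [h2] at h1
    exact h1
  · intro x hx
    have hy : t x ≠ 0 := by
      intro h0
      exact hx ((map_eq_zero_iff t t.injective).1 h0)
    have h1 := hg _ hy
    rw [← ht]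
    have h2 : t ((t⁻¹ * g * t) x / x - 1) = g (t x) / t x - 1 := by
      rw [map_sub, map_div₀, map_one, AlgEquiv.mul_apply, AlgEquiv.mul_apply, htt]
    rw [h2]
    exact h1

theorem t_WN : S_WN := by
  intro K B _ _ _ _ _ V q t f ht hf
  refine ⟨fun g h hg hh => wild_mul V hg hh, fun g hg => wild_inv V hg, fun g hg => ?_⟩
  have hadd : ∀ a b : B, a ∈ V.nonunits → b ∈ V.nonunits → a + b ∈ V.nonunits := by
    intro a b ha hb
    rw [ValuationSubring.mem_nonunits_iff] at ha hb ⊢
    exact Valuation.map_add_lt _ ha hb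
  have hsub : ∀ a : B, a ∈ V.nonunits → a ∈ V := fun a ha => V.nonunits_le ha
  have hq : q ≠ 0 := by
    rintro rfl
    have h1 := hf 0 V.zero_mem
    rw [map_zero, pow_zero, zero_sub, ValuationSubring.mem_nonunits_iff, Valuation.map_neg,
      map_one] at h1
    exact lt_irrefl _ h1
  have hT : ∀ x, t x ∈ V.nonunits ↔ x ∈ V.nonunits := by
    refine nonunits_iff V (t : B ≃+* B) (fun x hx => ?_) (fun x hx => ?_)
    · have h1 := V.add_mem _ _ (hsub _ (ht x hx)) hx
      rwa [sub_add_cancel] at h1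
    · have h1 := hadd _ _ (ht x (hsub x hx)) hx
      rwa [sub_add_cancel] at h1
  have hF : ∀ x, f x ∈ V.nonunits ↔ x ∈ V.nonunits := by
    refine nonunits_iff V (f : B ≃+* B) (fun x hx => ?_) (fun x hx => ?_)
    · have h1 := V.add_mem _ _ (hsub _ (hf x hx)) (pow_mem hx q)
      rwa [sub_add_cancel] at h1
    · have h2 : x ^ q ∈ V.nonunits := by
        rw [ValuationSubring.mem_nonunits_iff, map_pow]
        rw [ValuationSubring.mem_nonunits_iff] at hx
        exact pow_lt_one₀ zero_le hx hq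
      have h1 := hadd _ _ (hf x (hsub x hx)) h2
      rwa [sub_add_cancel] at h1
  have h1 := wild_conj V hg hT
  have h2 := wild_conj V hg hF
  exact ⟨h1.1, h1.2, h2.1, h2.2⟩

end Pool.Agent.U591.TS
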